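import Pool.Agent.Helper26.MCE.GoalsB

/-!
# Project MCE, packet NS: no persistent spoiling on finite probability spaces
-/

namespace Pool.Agent.Helper86.MCE

open Finset Pool.Agent.Helper87.MC Pool.Agent.Helper26.MCE

theorem full_add {G : Type} [AddCommGroup G] [Fintype G] {D : Finset G} {K : AddSubgroup G}
    {x h : G} (hx : x ∈ full D K) (hh : h ∈ K) : x + h ∈ full D K := by
  classical
  unfold full at *
  rw [mem_filter] at *
  refine ⟨hx.2 h hh, fun k hk => ?_⟩
  rw [add_assoc]
  exact hx.2 _ (K.add_mem hh hk)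

theorem goalNS : G_NS := by
  classical
  intro G _ _ D B K K' τ ρh ρ' Ω Om S hNo hρ' hρh hS
  set Q : Ω → G → Prop := fun ω w => w ∈ K ∧ w ∉ K' ∧ (B.card : ℝ) ≤ τ * rr B w ∧
    ∀ z ∈ full D K', w + z ∉ full D K' → w + z ∈ S ω with hQ
  set W : Finset Ω := Om.filter (fun ω => ∃ w, Q ω w) with hW
  change ρh * (W.card : ℝ) ≤ ρ' * Om.card
  by_contra hcon
  push Not at hcon
  have hW0 : (0 : ℝ) < (W.card : ℝ) := by
    rcases Nat.eq_zero_or_pos W.card with h | h
    · rw [h, Nat.cast_zero, mul_zero] at hcon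
      have : 0 ≤ ρ' * (Om.card : ℝ) := mul_nonneg hρ' (Nat.cast_nonneg _)
      linarith
    · exact_mod_cast h
  set w : Ω → G := fun ω => if h : ∃ g, Q ω g then h.choose else 0 with hw
  have hwQ : ∀ ω ∈ W, Q ω (w ω) := by
    intro ω hω
    have h := (mem_filter.mp hω).2
    rw [hw]
    simp only
    rw [dif_pos h]
    exact h.choose_spec
  set μ : G → ℝ := fun g => ∑ ω ∈ W, if w ω = g then 1 / (W.card : ℝ) else 0 with hμ
  have hinv : (0 : ℝ) ≤ 1 / (W.card : ℝ) := by positivity
  have hμ0 : ∀ g, 0 ≤ μ g := by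
    intro g
    refine Finset.sum_nonneg fun ω _ => ?_
    split_ifs
    · exact hinv
    · exact le_refl _
  have hμ1 : ∑ g, μ g = 1 := by
    rw [hμ]
    simp only
    rw [Finset.sum_comm]
    have h1 : ∀ ω ∈ W, ∑ g : G, (if w ω = g then 1 / (W.card : ℝ) else 0) = 1 / (W.card : ℝ) := by
      intro ω _
      rw [Finset.sum_ite_eq, if_pos (mem_univ _)]
    rw [Finset.sum_congr rfl h1, Finset.sum_const, nsmul_eq_mul]
    field_simp
  have hμne : ∀ g, μ g ≠ 0 → ∃ ω ∈ W, w ω = g := by
    intro g hg
    by_contra hno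
    push Not at hno
    apply hg
    refine Finset.sum_eq_zero fun ω hω => ?_
    rw [if_neg (hno ω hω)]
  refine hNo μ hμ0 hμ1 ?_ ?_ ?_
  · intro g hg
    obtain ⟨ω, hω, rfl⟩ := hμne g hg
    exact ⟨(hwQ ω hω).1, (hwQ ω hω).2.1⟩
  · intro g hg
    obtain ⟨ω, hω, rfl⟩ := hμne g hg
    exact (hwQ ω hω).2.2.1
  · intro z hz
    have h1 : TT μ (full D K') z =
        ((W.filter fun ω => z - w ω ∈ full D K').card : ℝ) / (W.card : ℝ) := by
      unfold TT
      rw [hμ]
      simp only
      have h2 : ∀ g : G, (if z - g ∈ full D K' then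
          ∑ ω ∈ W, (if w ω = g then 1 / (W.card : ℝ) else 0) else 0) =
          ∑ ω ∈ W, if w ω = g then (if z - w ω ∈ full D K' then 1 / (W.card : ℝ) else 0)
            else 0 := by
        intro g
        split_ifs with h3
        · refine Finset.sum_congr rfl fun ω _ => ?_
          by_cases h4 : w ω = g
          · rw [if_pos h4, if_pos h4, h4, if_pos h3]
          · rw [if_neg h4, if_neg h4]
        · symm
          refine Finset.sum_eq_zero fun ω _ => ?_
          by_cases h4 : w ω = g
          · rw [if_pos h4, h4, if_neg h3]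
          · rw [if_neg h4]
      rw [Finset.sum_congr rfl fun g _ => h2 g, Finset.sum_comm]
      have h5 : ∀ ω ∈ W, ∑ g : G, (if w ω = g then
          (if z - w ω ∈ full D K' then 1 / (W.card : ℝ) else 0) else 0) =
          if z - w ω ∈ full D K' then 1 / (W.card : ℝ) else 0 := by
        intro ω _
        rw [Finset.sum_ite_eq, if_pos (mem_univ _)]
      rw [Finset.sum_congr rfl h5, ← Finset.sum_filter, Finset.sum_const, nsmul_eq_mul,
        mul_one_div]
    have h6 : (W.filter fun ω => z - w ω ∈ full D K') ⊆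
        Om.filter fun ω => ∀ h ∈ K', z + h ∈ S ω := by
      intro ω hω
      rw [mem_filter] at hω
      rw [mem_filter]
      refine ⟨(mem_filter.mp hω.1).1, fun h hh => ?_⟩
      have h7 := full_add hω.2 hh
      have h8 : w ω + (z - w ω + h) = z + h := by abel
      have h9 : z + h ∉ full D K' := by
        intro h10
        have h11 := full_add h10 (K'.neg_mem hh)
        rw [add_neg_cancel_right] at h11
        exact hz h11
      have h12 := (hwQ ω hω.1).2.2.2 (z - w ω + h) h7
      rw [h8] at h12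
      exact h12 h9
    have h13 : ((W.filter fun ω => z - w ω ∈ full D K').card : ℝ) ≤ ρ' * Om.card :=
      le_trans (by exact_mod_cast Finset.card_le_card h6) (hS z hz)
    rw [h1, div_le_iff₀ hW0]
    exact h13.trans hcon.le

end Pool.Agent.Helper86.MCE
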